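import Mathlib
import Pool.Agent.R350.GK

/-!
# Singular matrices of logarithms with all rows but one generic

For every `k` there is `C` such that for `x ≥ 16` all but `C (log log x) ^ C / log x * x ^ k` of the
`k`-tuples `a` of positive integers up to `x` have the following property: `log a_1, …, log a_k` are
linearly independent over `ℚ`, and the conclusion of Q1 holds for ALL square matrices of all sizes
with all rows but one (or all columns but one) in the space `ℚ log a_1 + ⋯ + ℚ log a_k` and with
ARBITRARY logarithms of algebraic numbers in the remaining row (or column).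

The proof: for generic tuples (`Pool.Agent.R350.freeT_rate`) every polynomial relation of bounded
degree between the `log a_i` which is linear in arbitrary further logarithms is formal.  So the
determinant vanishes formally, and all members of the space of rational matrices which defines the
given matrix are singular; by a classical argument (a matrix of maximal rank in the space) they have a
common isotropic pair of vectors.
-/

set_option autoImplicit false

namespace Pool.Agent.Results.MP_1f047c_nt.AllButOneRow

open Module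

open Classical in
/-- **Main result.** -/
theorem result (k : ℕ) : ∃ C : ℕ, ∀ x : ℕ, 16 ≤ x →
    (((Fintype.piFinset fun _ : Fin k => Finset.Icc 1 x).filter fun a =>
      ¬ (LinearIndependent ℚ (fun i => (Real.log (a i) : ℂ)) ∧
        ∀ (n : ℕ) (M : Matrix (Fin n) (Fin n) ℂ) (i₀ : Fin n),
          (∀ i j, IsAlgebraic ℚ (Complex.exp (M i j))) →
          ((∀ i, i ≠ i₀ → ∀ j, M i j ∈
              Submodule.span ℚ (Set.range fun l => (Real.log (a l) : ℂ))) ∨
            ∀ j, j ≠ i₀ → ∀ i, M i j ∈
              Submodule.span ℚ (Set.range fun l => (Real.log (a l) : ℂ))) →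
          M.det = 0 →
          ∃ w v : Fin n → ℚ, w ≠ 0 ∧ v ≠ 0 ∧
            ∑ i, ∑ j, (w i : ℂ) * M i j * (v j : ℂ) = 0)).card : ℝ) ≤
      C * Real.log (Real.log x) ^ C / Real.log x * (x : ℝ) ^ k := by
  obtain ⟨C, hC⟩ := Pool.Agent.R350.rate_free_complex (k + 2) k
  refine ⟨C, fun x hx => ?_⟩
  refine hC x hx _ (fun a ha => (Finset.mem_filter.1 ha).1) ?_
  intro a ha hfree
  apply (Finset.mem_filter.1 ha).2
  have hapos : ∀ i, 0 < a i := fun i => by
    have := (Fintype.mem_piFinset.1 (Finset.mem_filter.1 ha).1) i
    exact (Finset.mem_Icc.1 this).1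
  have hlog : ∀ i, IsAlgebraic ℚ (Complex.exp (Real.log (a i) : ℂ)) := by
    intro i
    rw [← Complex.ofReal_exp, Real.exp_log (by exact_mod_cast hapos i), Complex.ofReal_natCast]
    exact isAlgebraic_natCast _
  have hQ : LinearIndependent ℚ (fun i => (Real.log (a i) : ℂ)) :=
    Pool.Agent.R350.FreeT.indepQ (D := k + 1) hfree
  have main : ∀ (n : ℕ) (M : Matrix (Fin n) (Fin n) ℂ) (i₀ : Fin n),
      (∀ i j, IsAlgebraic ℚ (Complex.exp (M i j))) →
      (∀ i, i ≠ i₀ → ∀ j, M i j ∈ Submodule.span ℚ (Set.range fun l => (Real.log (a l) : ℂ))) →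
      M.det = 0 →
      ∃ w v : Fin n → ℚ, w ≠ 0 ∧ v ≠ 0 ∧ ∑ i, ∑ j, (w i : ℂ) * M i j * (v j : ℂ) = 0 := by
    intro n M i₀ hM hrow hdet
    rcases Nat.lt_or_ge (k + 1) n with hlt | hge
    · exact Pool.Agent.R350.rows_zero_large hlt _ M i₀ hrow
    · exact Pool.Agent.R350.rows_zero (D := k + 2) Pool.Agent.R350.logSub
        (fun z hz => Pool.Agent.H301R2.SSE.Lt_log hz) Pool.Agent.R350.setup_complex.one
        (by omega) _ hlog
        (fun r g hg hli c0 b c h0 => (Pool.Agent.R350.indep_inhom_complex _ g hlog hg hli c0 b c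
          h0).2.2) hfree hQ M hM i₀ hrow hdet
  refine ⟨hQ, fun n M i₀ hM hrow hdet => ?_⟩
  rcases hrow with hrow | hcol
  · exact main n M i₀ hM hrow hdet
  · obtain ⟨w, v, hw, hv, h⟩ := main n M.transpose i₀ (fun i j => hM j i) hcol (by
      rw [Matrix.det_transpose]; exact hdet)
    refine ⟨v, w, hv, hw, ?_⟩
    rw [← h, Finset.sum_comm]
    refine Finset.sum_congr rfl fun i _ => Finset.sum_congr rfl fun j _ => ?_
    rw [Matrix.transpose_apply]
    ring

end Pool.Agent.Results.MP_1f047c_nt.AllButOneRow
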