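import Mathlib
import Pool.Agent.R350.GK

/-!
# Singular matrices of `p`-adic logarithms with all rows but one generic

The `p`-adic analogue of `AllButOneRow`: for every `k` there is `C` such that for `x ≥ 16`, all
primes `p` and the Iwasawa logarithm `L` all but `C (log log x) ^ C / log x * x ^ k` of the `k`-tuples
`a` of positive integers up to `x` have the following property: `L (a_1), …, L (a_k)` are
linearly independent over `ℚ`, and the conclusion of Q2 holds for ALL square matrices of all sizes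
with all rows but one (or all columns but one) in the space `ℚ L (a_1) + ⋯ + ℚ L (a_k)` and with
ARBITRARY `p`-adic logarithms of algebraic numbers in the remaining row (or column).
-/

set_option autoImplicit false

namespace Pool.Agent.Results.MP_1f047c_nt.AllButOneRowPadic

open Module

/-- `L` is the Iwasawa `p`-adic logarithm on the algebraic closure of `ℚ_p`. -/
def IsIwasawaLog (p : ℕ) [Fact p.Prime] (L : PadicAlgCl p → PadicAlgCl p) : Prop :=
  (∀ x y : PadicAlgCl p, x ≠ 0 → y ≠ 0 → L (x * y) = L x + L y) ∧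
  L ((p : ℕ) : PadicAlgCl p) = 0 ∧
  ∀ z : PadicAlgCl p, ‖z‖ < 1 →
    HasSum (fun n : ℕ => (-1 : PadicAlgCl p) ^ n * z ^ (n + 1) / ((n : PadicAlgCl p) + 1))
      (L (1 + z))

open Classical in
/-- **Main result.** -/
theorem result (k : ℕ) : ∃ C : ℕ, ∀ x : ℕ, 16 ≤ x → ∀ (p : ℕ) [Fact p.Prime]
    (L : PadicAlgCl p → PadicAlgCl p), IsIwasawaLog p L →
    (((Fintype.piFinset fun _ : Fin k => Finset.Icc 1 x).filter fun a =>
      ¬ (LinearIndependent ℚ (fun i => L (a i : PadicAlgCl p)) ∧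
        ∀ (n : ℕ) (M : Matrix (Fin n) (Fin n) (PadicAlgCl p)) (i₀ : Fin n),
          (∀ i j, ∃ α : PadicAlgCl p, α ≠ 0 ∧ IsAlgebraic ℚ α ∧ M i j = L α) →
          ((∀ i, i ≠ i₀ → ∀ j, M i j ∈
              Submodule.span ℚ (Set.range fun l => L (a l : PadicAlgCl p))) ∨
            ∀ j, j ≠ i₀ → ∀ i, M i j ∈
              Submodule.span ℚ (Set.range fun l => L (a l : PadicAlgCl p))) →
          M.det = 0 →
          ∃ w v : Fin n → ℚ, w ≠ 0 ∧ v ≠ 0 ∧
            ∑ i, ∑ j, (w i : PadicAlgCl p) * M i j * (v j : PadicAlgCl p) = 0)).card : ℝ) ≤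
      C * Real.log (Real.log x) ^ C / Real.log x * (x : ℝ) ^ k := by
  obtain ⟨C, hC⟩ := Pool.Agent.R350.rate_free_padic (k + 2) k
  refine ⟨C, fun x hx p _ L hL0 => ?_⟩
  have hL : Pool.Agent.W245.PB.IsIwasawaLog p L := ⟨hL0.1, hL0.2.1, hL0.2.2⟩
  refine hC x hx p L hL _ (fun a ha => (Finset.mem_filter.1 ha).1) ?_
  intro a ha hfree
  apply (Finset.mem_filter.1 ha).2
  have hapos : ∀ i, 0 < a i := fun i => by
    have := (Fintype.mem_piFinset.1 (Finset.mem_filter.1 ha).1) i
    exact (Finset.mem_Icc.1 this).1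
  have hlog : ∀ i, ∃ α : PadicAlgCl p, α ≠ 0 ∧ IsAlgebraic ℚ α ∧ L (a i : PadicAlgCl p) = L α :=
    fun i => ⟨(a i : PadicAlgCl p), Nat.cast_ne_zero.2 (hapos i).ne', isAlgebraic_natCast _, rfl⟩
  have hQ : LinearIndependent ℚ (fun i => L (a i : PadicAlgCl p)) :=
    Pool.Agent.R350.FreeT.indepQ (D := k + 1) hfree
  have main : ∀ (n : ℕ) (M : Matrix (Fin n) (Fin n) (PadicAlgCl p)) (i₀ : Fin n),
      (∀ i j, ∃ α : PadicAlgCl p, α ≠ 0 ∧ IsAlgebraic ℚ α ∧ M i j = L α) →
      (∀ i, i ≠ i₀ → ∀ j, M i j ∈ Submodule.span ℚ (Set.range fun l => L (a l : PadicAlgCl p))) →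
      M.det = 0 →
      ∃ w v : Fin n → ℚ, w ≠ 0 ∧ v ≠ 0 ∧
        ∑ i, ∑ j, (w i : PadicAlgCl p) * M i j * (v j : PadicAlgCl p) = 0 := by
    intro n M i₀ hM hrow hdet
    rcases Nat.lt_or_ge (k + 1) n with hlt | hge
    · exact Pool.Agent.R350.rows_zero_large hlt _ M i₀ hrow
    · exact Pool.Agent.R350.rows_zero (D := k + 2) (Pool.Agent.R350.logSubP hL)
        (fun z hz => Pool.Agent.Y787.log_mem hz) (Pool.Agent.R350.setup_padic hL).one
        (by omega) _ hlog
        (fun r g hg hli c0 b c h0 => (Pool.Agent.R350.indep_inhom_padic hL _ g hlog hg hli c0 b c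
          h0).2.2) hfree hQ M hM i₀ hrow hdet
  refine ⟨hQ, fun n M i₀ hM hrow hdet => ?_⟩
  rcases hrow with hrow | hcol
  · exact main n M i₀ hM hrow hdet
  · obtain ⟨w, v, hw, hv, h⟩ := main n M.transpose i₀ (fun i j => hM j i) hcol (by
      rw [Matrix.det_transpose]; exact hdet)
    refine ⟨v, w, hv, hw, ?_⟩
    rw [← h, Finset.sum_comm]
    refine Finset.sum_congr rfl fun i _ => Finset.sum_congr rfl fun j _ => ?_
    rw [Matrix.transpose_apply]
    ring

end Pool.Agent.Results.MP_1f047c_nt.AllButOneRowPadic
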