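import Mathlib
import Pool.Agent.R350.Kernel

/-!
# Singular matrices of logarithms with a generic kernel vector

Let `V` be a rational space of complex numbers of dimension at most `m`.  For all but
`C x ^ k (log log x) ^ C / log x` of the `k`-tuples of integers between `1` and `x` the space
`V' = V + ℚ log a_1 + ⋯ + ℚ log a_k` has dimension `dim V + k`, and the conclusion of Q1 holds for all
square matrices of all sizes with ARBITRARY entries in the space of all logarithms of algebraic numbers
which have a left or right kernel vector with coordinates in `V'`, not all in `V`.  The constant `C`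
depends only on `m` and `k`.

For `n = 2` and `V = 0` this is the four exponentials conjecture for the matrices with one row (or
column) in `ℚ log a_1 + ⋯ + ℚ log a_k` and arbitrary other row.

The proof: for almost all tuples the linear relations `∑ u_j z_j = 0` with coefficients `u_j` in `V'`
and arbitrary logarithms `z_j` are alternating (`Pool.Agent.R350.skewness`): if a linear form `φ`
vanishes on `V`, then `∑ φ(u_j) z_j` is in the space generated by the `u_j` and in the kernel of `φ`.
So `v = (φ(u_j))` is a rational vector and the `n` coordinates of `M v` lie in a space of dimension at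
most `n - 1` over the algebraic numbers; by Baker's theorem they are linearly dependent over `ℚ`.
-/

namespace Pool.Agent.Results.MP_1f047c_nt.GenericKernel

open Module

open Classical in
/-- **Main result.** -/
theorem result (m k : ℕ) :
    ∃ C : ℕ, ∀ x : ℕ, 16 ≤ x → ∀ V : Submodule ℚ ℂ, Module.Finite ℚ V → finrank ℚ V ≤ m →
      (((Fintype.piFinset fun _ : Fin k => Finset.Icc 1 x).filter fun a =>
        ¬ (finrank ℚ (V ⊔ Submodule.span ℚ (Set.range fun i => (Real.log (a i) : ℂ)) :
            Submodule ℚ ℂ) = finrank ℚ V + k ∧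
          ∀ (n : ℕ) (M : Matrix (Fin n) (Fin n) ℂ) (u : Fin n → ℂ),
            (∀ i j, IsAlgebraic ℚ (Complex.exp (M i j))) →
            (∀ j, u j ∈ V ⊔ Submodule.span ℚ (Set.range fun i => (Real.log (a i) : ℂ))) →
            (∃ j, u j ∉ V) →
            (M.mulVec u = 0 ∨ M.vecMul u = 0) →
            ∃ w v : Fin n → ℚ, w ≠ 0 ∧ v ≠ 0 ∧
              ∑ i, ∑ j, (w i : ℂ) * M i j * (v j : ℂ) = 0)).card : ℝ) ≤
        C * Real.log (Real.log x) ^ C / Real.log x * (x : ℝ) ^ k := by
  obtain ⟨C, hC⟩ := Pool.Agent.R350.rate_gen_complex k m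
  refine ⟨C, fun x hx V hVf hVm => ?_⟩
  have hVf' := Pool.Agent.R350.spanK_finite (κ := algebraicClosure ℚ ℂ) V
  refine hC x hx (Submodule.span (algebraicClosure ℚ ℂ) (V : Set ℂ)) hVf'
    ((Pool.Agent.R350.finrank_spanK_le V).trans hVm) _
    (fun a ha => (Finset.mem_filter.1 ha).1) ?_
  intro a ha hgen
  apply (Finset.mem_filter.1 ha).2
  have hapos : ∀ i, 0 < a i := fun i => by
    have := (Fintype.mem_piFinset.1 (Finset.mem_filter.1 ha).1) i
    exact (Finset.mem_Icc.1 this).1
  have hS := Pool.Agent.R350.setup_complex.sup (m := m)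
    (Submodule.span (algebraicClosure ℚ ℂ) (V : Set ℂ))
    ((Pool.Agent.R350.finrank_spanK_le V).trans hVm)
  refine ⟨Pool.Agent.R350.Gen.finrankQ V _ hgen, ?_⟩
  have main : ∀ (n : ℕ) (M : Matrix (Fin n) (Fin n) ℂ) (u : Fin n → ℂ),
      (∀ i j, IsAlgebraic ℚ (Complex.exp (M i j))) →
      (∀ j, u j ∈ V ⊔ Submodule.span ℚ (Set.range fun i => (Real.log (a i) : ℂ))) →
      (∃ j, u j ∉ V) → M.mulVec u = 0 →
      ∃ w v : Fin n → ℚ, w ≠ 0 ∧ v ≠ 0 ∧ ∑ i, ∑ j, (w i : ℂ) * M i j * (v j : ℂ) = 0 := by
    intro n M u hM hu huV hker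
    exact Pool.Agent.R350.kernel_zero Pool.Agent.R350.logSub Pool.Agent.R350.baker_logSub
      (fun z hz => Pool.Agent.H301R2.SSE.Lt_log hz) V hS.hyp _
      (fun i => Pool.Agent.R350.setup_complex.mem _ (hapos i)) hgen M hM u hu huV
      (fun i => congrFun hker i)
  intro n M u hM hu huV hker
  rcases hker with hker | hker
  · exact main n M u hM hu huV hker
  · obtain ⟨w, v, hw, hv, h⟩ := main n M.transpose u (fun i j => hM j i) hu huV (by
      rw [Matrix.mulVec_transpose]; exact hker)
    refine ⟨v, w, hv, hw, ?_⟩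
    rw [← h, Finset.sum_comm]
    refine Finset.sum_congr rfl fun i _ => Finset.sum_congr rfl fun j _ => ?_
    rw [Matrix.transpose_apply]
    ring

end Pool.Agent.Results.MP_1f047c_nt.GenericKernel
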