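import Mathlib
import Pool.Agent.R350.Kernel

/-!
# Singular matrices of `p`-adic logarithms with a generic kernel vector

Let `V` be a rational space of dimension at most `m` in the algebraic closure of `ℚ_p`.  For all but
`C x ^ k (log log x) ^ C / log x` of the `k`-tuples of integers between `1` and `x` the space
`V' = V + ℚ log_p a_1 + ⋯ + ℚ log_p a_k` has dimension `dim V + k`, and the conclusion of Q2 holds for all
square matrices of all sizes with ARBITRARY entries in the space of all `p`-adic logarithms of algebraic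
numbers which have a left or right kernel vector with coordinates in `V'`, not all in `V`.  The
constant `C` depends only on `m` and `k`, not on `p` and `V`.

This is the `p`-adic version (Q2) of `GenericKernel` (Q1).
-/

namespace Pool.Agent.Results.MP_1f047c_nt.GenericKernelPadic

open Module

/-- `L` is the Iwasawa `p`-adic logarithm on the algebraic closure of `ℚ_p`. -/
def IsIwasawaLog (p : ℕ) [Fact p.Prime] (L : PadicAlgCl p → PadicAlgCl p) : Prop :=
  (∀ x y : PadicAlgCl p, x ≠ 0 → y ≠ 0 → L (x * y) = L x + L y) ∧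
  L ((p : ℕ) : PadicAlgCl p) = 0 ∧
  ∀ z : PadicAlgCl p, ‖z‖ < 1 →
    HasSum (fun n : ℕ => (-1 : PadicAlgCl p) ^ n * z ^ (n + 1) / ((n : PadicAlgCl p) + 1))
      (L (1 + z))

open Classical in
/-- **Main result.** -/
theorem result (m k : ℕ) :
    ∃ C : ℕ, ∀ x : ℕ, 16 ≤ x → ∀ (p : ℕ) [Fact p.Prime] (L : PadicAlgCl p → PadicAlgCl p),
      IsIwasawaLog p L →
      ∀ V : Submodule ℚ (PadicAlgCl p), Module.Finite ℚ V → finrank ℚ V ≤ m →
      (((Fintype.piFinset fun _ : Fin k => Finset.Icc 1 x).filter fun a =>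
        ¬ (finrank ℚ (V ⊔ Submodule.span ℚ (Set.range fun i => L (a i : PadicAlgCl p)) :
            Submodule ℚ (PadicAlgCl p)) = finrank ℚ V + k ∧
          ∀ (n : ℕ) (M : Matrix (Fin n) (Fin n) (PadicAlgCl p)) (u : Fin n → PadicAlgCl p),
            (∀ i j, ∃ α : PadicAlgCl p, α ≠ 0 ∧ IsAlgebraic ℚ α ∧ M i j = L α) →
            (∀ j, u j ∈ V ⊔ Submodule.span ℚ (Set.range fun i => L (a i : PadicAlgCl p))) →
            (∃ j, u j ∉ V) →
            (M.mulVec u = 0 ∨ M.vecMul u = 0) →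
            ∃ w v : Fin n → ℚ, w ≠ 0 ∧ v ≠ 0 ∧
              ∑ i, ∑ j, (w i : PadicAlgCl p) * M i j * (v j : PadicAlgCl p) = 0)).card : ℝ) ≤
        C * Real.log (Real.log x) ^ C / Real.log x * (x : ℝ) ^ k := by
  obtain ⟨C, hC⟩ := Pool.Agent.R350.rate_gen_padic k m
  refine ⟨C, fun x hx p _ L hL V hVf hVm => ?_⟩
  have hL' : Pool.Agent.W245.PB.IsIwasawaLog p L := ⟨hL.1, hL.2.1, hL.2.2⟩
  have hVf' := Pool.Agent.R350.spanK_finite (κ := algebraicClosure ℚ (PadicAlgCl p)) V
  refine hC x hx p L hL' (Submodule.span (algebraicClosure ℚ (PadicAlgCl p))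
    (V : Set (PadicAlgCl p))) hVf' ((Pool.Agent.R350.finrank_spanK_le V).trans hVm) _
    (fun a ha => (Finset.mem_filter.1 ha).1) ?_
  intro a ha hgen
  apply (Finset.mem_filter.1 ha).2
  have hapos : ∀ i, 0 < a i := fun i => by
    have := (Fintype.mem_piFinset.1 (Finset.mem_filter.1 ha).1) i
    exact (Finset.mem_Icc.1 this).1
  have hS := (Pool.Agent.R350.setup_padic hL').sup (m := m)
    (Submodule.span (algebraicClosure ℚ (PadicAlgCl p)) (V : Set (PadicAlgCl p)))
    ((Pool.Agent.R350.finrank_spanK_le V).trans hVm)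
  refine ⟨Pool.Agent.R350.Gen.finrankQ V _ hgen, ?_⟩
  have main : ∀ (n : ℕ) (M : Matrix (Fin n) (Fin n) (PadicAlgCl p)) (u : Fin n → PadicAlgCl p),
      (∀ i j, ∃ α : PadicAlgCl p, α ≠ 0 ∧ IsAlgebraic ℚ α ∧ M i j = L α) →
      (∀ j, u j ∈ V ⊔ Submodule.span ℚ (Set.range fun i => L (a i : PadicAlgCl p))) →
      (∃ j, u j ∉ V) → M.mulVec u = 0 →
      ∃ w v : Fin n → ℚ, w ≠ 0 ∧ v ≠ 0 ∧
        ∑ i, ∑ j, (w i : PadicAlgCl p) * M i j * (v j : PadicAlgCl p) = 0 := by
    intro n M u hM hu huV hker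
    exact Pool.Agent.R350.kernel_zero (Pool.Agent.R350.logSubP hL')
      (Pool.Agent.R350.baker_logSubP hL')
      (fun z hz => Pool.Agent.Y787.log_mem hz) V hS.hyp _
      (fun i => (Pool.Agent.R350.setup_padic hL').mem _ (hapos i)) hgen M hM u hu huV
      (fun i => congrFun hker i)
  intro n M u hM hu huV hker
  rcases hker with hker | hker
  · exact main n M u hM hu huV hker
  · obtain ⟨w, v, hw, hv, h⟩ := main n M.transpose u (fun i j => hM j i) hu huV (by
      rw [Matrix.mulVec_transpose]; exact hker)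
    refine ⟨v, w, hv, hw, ?_⟩
    rw [← h, Finset.sum_comm]
    refine Finset.sum_congr rfl fun i _ => Finset.sum_congr rfl fun j _ => ?_
    rw [Matrix.transpose_apply]
    ring

end Pool.Agent.Results.MP_1f047c_nt.GenericKernelPadic
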